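import Pool.Agent.Helper74.CO.Goals

/-!
# Project CO (MP_c5396e_co), packet EXC3
-/

set_option autoImplicit false

namespace Pool.Agent.Helper32.CO

open Finset Pool.Agent.Helper74.CO

/-- digits are determined -/
theorem digits (a : ℤ) (d : ℕ) (hc : IsCoprime a (d : ℤ)) (κ : ℕ) : ∀ m : ℕ → ℤ,
    (∀ k < κ, |m k| < |a|) →
    ∑ k ∈ range κ, m k * a ^ k * (d : ℤ) ^ (κ - 1 - k) = 0 → ∀ k < κ, m k = 0 := by
  induction κ with
  | zero => intro m _ _ k hk; exact absurd hk (Nat.not_lt_zero k)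
  | succ κ ih =>
    intro m hm h k hk
    have ha : a ≠ 0 := by
      intro h0
      have h1 := hm 0 (Nat.succ_pos κ)
      rw [h0, abs_zero] at h1
      exact absurd h1 (not_lt.2 (abs_nonneg _))
    rw [Finset.sum_range_succ'] at h
    have h1 : ∑ k ∈ range κ, m (k + 1) * a ^ (k + 1) * (d : ℤ) ^ (κ + 1 - 1 - (k + 1)) =
        a * ∑ k ∈ range κ, m (k + 1) * a ^ k * (d : ℤ) ^ (κ - 1 - k) := by
      rw [Finset.mul_sum]
      refine Finset.sum_congr rfl fun k _ => ?_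
      rw [show κ + 1 - 1 - (k + 1) = κ - 1 - k by omega, pow_succ]
      ring
    rw [h1, pow_zero, mul_one, show κ + 1 - 1 - 0 = κ by omega] at h
    have h2 : a ∣ m 0 := by
      have h3 : a ∣ m 0 * (d : ℤ) ^ κ :=
        ⟨-∑ k ∈ range κ, m (k + 1) * a ^ k * (d : ℤ) ^ (κ - 1 - k), by linarith⟩
      exact (hc.pow_right).dvd_of_dvd_mul_right h3
    have h3 : m 0 = 0 := Int.eq_zero_of_abs_lt_dvd ((abs_dvd a _).2 h2) (hm 0 (Nat.succ_pos κ))
    rw [h3, zero_mul, add_zero] at h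
    have h4 := (mul_eq_zero.1 h).resolve_left ha
    cases k with
    | zero => exact h3
    | succ k => exact ih (fun k => m (k + 1)) (fun k hk => hm (k + 1) (by omega)) h4 k (by omega)

/-- size of the combination -/
theorem size (a : ℤ) (d : ℕ) (hd : (d : ℤ) < |a|) (κ : ℕ) (m : ℕ → ℤ)
    (hm : ∀ k < κ, |m k| < |a|) :
    |∑ k ∈ range κ, m k * a ^ k * (d : ℤ) ^ (κ - 1 - k)| ≤ (|a| - 1) * |a| ^ κ := by
  have hd0 : (0 : ℤ) ≤ d := Int.natCast_nonneg d
  have hB : 0 ≤ |a| - 1 := by omega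
  calc |∑ k ∈ range κ, m k * a ^ k * (d : ℤ) ^ (κ - 1 - k)|
      ≤ ∑ k ∈ range κ, |m k * a ^ k * (d : ℤ) ^ (κ - 1 - k)| := Finset.abs_sum_le_sum_abs _ _
    _ ≤ ∑ k ∈ range κ, (|a| - 1) * (|a| ^ k * (|a| - 1) ^ (κ - 1 - k)) := by
        refine Finset.sum_le_sum fun k hk => ?_
        rw [abs_mul, abs_mul, abs_pow, abs_pow, abs_of_nonneg hd0, mul_assoc]
        refine mul_le_mul ?_ ?_ (by positivity) hB
        · have := hm k (Finset.mem_range.1 hk)
          omega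
        · refine mul_le_mul_of_nonneg_left ?_ (by positivity)
          exact pow_le_pow_left₀ hd0 (by omega) _
    _ = (|a| - 1) * (|a| ^ κ - (|a| - 1) ^ κ) := by
        rw [← Finset.mul_sum]
        congr 1
        have h1 := geom_sum₂_mul (|a|) (|a| - 1) κ
        rw [show |a| - (|a| - 1) = 1 by ring, mul_one] at h1
        exact h1
    _ ≤ (|a| - 1) * |a| ^ κ := by
        refine mul_le_mul_of_nonneg_left ?_ hB
        have : 0 ≤ (|a| - 1) ^ κ := pow_nonneg hB κ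
        omega

theorem big (E : ℕ) : ∃ κ₀ : ℕ, ∀ κ : ℕ, κ₀ ≤ κ → 256 * E ^ 2 * κ ^ 2 ≤ 2 ^ κ := by
  have h := tendsto_pow_const_div_const_pow_of_one_lt 2 (one_lt_two : (1 : ℝ) < 2)
  have h1 : ∀ᶠ n : ℕ in Filter.atTop, (n : ℝ) ^ 2 / 2 ^ n < 1 / (256 * E ^ 2 + 1) :=
    h.eventually_lt_const (by positivity)
  obtain ⟨κ₀, hκ₀⟩ := Filter.eventually_atTop.1 h1
  refine ⟨κ₀, fun κ hκ => ?_⟩
  have h2 := hκ₀ κ hκ
  rw [div_lt_div_iff₀ (by positivity) (by positivity), one_mul] at h2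
  have h3 : (256 * E ^ 2 * κ ^ 2 : ℝ) ≤ 2 ^ κ := by
    nlinarith [sq_nonneg (κ : ℝ)]
  exact_mod_cast h3

theorem sum1 (κ : ℕ) : ∑ k ∈ range κ, (1 + k) ≤ κ ^ 2 := by
  induction κ with
  | zero => simp
  | succ κ ih =>
    rw [Finset.sum_range_succ]
    nlinarith

/-- EXC3 -/
theorem t_EXC3 (hSX : SX) (hSUB : SUB) : Pool.Agent.Helper74.CO.EXC3 := by
  intro E hE
  obtain ⟨κ₀, hκ₀⟩ := big E
  refine ⟨64 * E ^ 2 * κ₀ ^ 2, ?_⟩
  intro F _ _ _ γ X p _ a d hp hcard hγ hX hcost hpX hd hda haE hcop hdg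
  by_contra hN
  rw [not_le] at hN
  obtain ⟨b, hb⟩ : ∃ b : ℕ, b = a.natAbs := ⟨_, rfl⟩
  have hab : |a| = (b : ℤ) := by rw [hb]; exact Int.abs_eq_natAbs a
  rw [hab] at hda haE
  have hb2 : 2 ≤ b := by omega
  have hbE : b ≤ 32 * E := by exact_mod_cast haE
  have hXpos : 0 < #X := hX.card_pos
  obtain ⟨κ', hκ'⟩ : ∃ κ', κ' = Nat.log b (2 * #X) := ⟨_, rfl⟩
  have hlo : b ^ κ' ≤ 2 * #X := by rw [hκ']; exact Nat.pow_log_le_self b (by omega)
  have hhi : 2 * #X < b ^ (κ' + 1) := by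
    rw [hκ']; exact Nat.lt_pow_succ_log_self (by omega) _
  obtain ⟨κ, hκ⟩ : ∃ κ, κ = κ' + 1 := ⟨_, rfl⟩
  rw [← hκ] at hhi
  have hcostN : 64 * E ^ 2 * κ ^ 2 ≤ #X := by
    rcases Nat.lt_or_ge κ κ₀ with h1 | h1
    · have h2 : 64 * E ^ 2 * κ ^ 2 ≤ 64 * E ^ 2 * κ₀ ^ 2 :=
        Nat.mul_le_mul_left _ (Nat.pow_le_pow_left h1.le 2)
      omega
    · have h2 := hκ₀ κ h1
      have h3 : 2 ^ κ' ≤ b ^ κ' := Nat.pow_le_pow_left hb2 κ'
      have h4 : 2 ^ κ = 2 * 2 ^ κ' := by rw [hκ, pow_succ]; ring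
      have h5 : 256 * E ^ 2 * κ ^ 2 = 4 * (64 * E ^ 2 * κ ^ 2) := by ring
      omega
  let ext : (Fin κ → Fin b) → ℕ → ℕ := fun φ k => if h : k < κ then (φ ⟨k, h⟩ : ℕ) else 0
  have hext : ∀ φ, ∀ k < κ, ext φ k < b := by
    intro φ k hk
    have h1 : ext φ k = (φ ⟨k, hk⟩ : ℕ) := dif_pos hk
    rw [h1]
    exact (φ ⟨k, hk⟩).2
  let ev : (Fin κ → Fin b) → F := fun φ => ∑ k ∈ range κ, (ext φ k : F) * γ ^ k
  have hinj : Function.Injective ev := by
    intro φ ψ hφψ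
    have h1 : ∑ k ∈ range κ, (ext φ k : F) * γ ^ k = ∑ k ∈ range κ, (ext ψ k : F) * γ ^ k := hφψ
    obtain ⟨m, hm⟩ : ∃ m : ℕ → ℤ, m = fun k => (ext φ k : ℤ) - ext ψ k := ⟨_, rfl⟩
    have hmb : ∀ k < κ, |m k| < |a| := by
      intro k hk
      have h2 := hext φ k hk
      have h3 := hext ψ k hk
      rw [hab, hm, abs_lt]
      constructor <;> simp only <;> omega
    have h2 : ((∑ k ∈ range κ, m k * a ^ k * (d : ℤ) ^ (κ - 1 - k) : ℤ) : F) = 0 := by
      have h3 : ∀ k ∈ range κ, ((m k * a ^ k * (d : ℤ) ^ (κ - 1 - k) : ℤ) : F) =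
          (d : F) ^ (κ - 1) * ((ext φ k : F) * γ ^ k - (ext ψ k : F) * γ ^ k) := by
        intro k hk
        have hk' := Finset.mem_range.1 hk
        have e1 : (d : F) ^ (κ - 1) = (d : F) ^ k * (d : F) ^ (κ - 1 - k) := by
          rw [← pow_add]
          congr 1
          omega
        rw [hm]
        push_cast
        rw [← hdg, e1, mul_pow]
        ring
      rw [Int.cast_sum, Finset.sum_congr rfl h3, ← Finset.mul_sum, Finset.sum_sub_distrib, h1,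
        sub_self, mul_zero]
    have h3 : (p : ℤ) ∣ ∑ k ∈ range κ, m k * a ^ k * (d : ℤ) ^ (κ - 1 - k) :=
      (CharP.intCast_eq_zero_iff F p _).1 h2
    have h4 := size a d (by rw [hab]; exact hda) κ m hmb
    have h5 : (|a| - 1) * |a| ^ κ < p := by
      rw [hab]
      have h6 : b ^ (κ + 1) ≤ 2048 * E ^ 2 * #X := by
        have h7 : b ^ (κ + 1) = b ^ 2 * b ^ κ' := by
          rw [hκ, ← pow_add]
          congr 1
          omega
        rw [h7]
        calc b ^ 2 * b ^ κ' ≤ (32 * E) ^ 2 * (2 * #X) :=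
              Nat.mul_le_mul (Nat.pow_le_pow_left hbE 2) hlo
          _ = 2048 * E ^ 2 * #X := by ring
      have h8 : b ^ (κ + 1) < p := by
        have : 2048 * E ^ 2 * #X ≤ 5000 * E ^ 2 * #X :=
          Nat.mul_le_mul_right _ (Nat.mul_le_mul_right _ (by norm_num))
        omega
      have h9 : ((b : ℤ) - 1) * (b : ℤ) ^ κ ≤ (b : ℤ) ^ (κ + 1) := by
        rw [pow_succ]
        have : (0 : ℤ) ≤ (b : ℤ) ^ κ := by positivity
        nlinarith
      refine lt_of_le_of_lt h9 ?_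
      exact_mod_cast h8
    have h6 := Int.eq_zero_of_abs_lt_dvd h3 (lt_of_le_of_lt h4 h5)
    have h7 := digits a d hcop κ m hmb h6
    funext k
    apply Fin.ext
    have h8 := h7 k.1 k.2
    rw [hm] at h8
    have e1 : ext φ k.1 = (φ k : ℕ) := dif_pos k.2
    have e2 : ext ψ k.1 = (ψ k : ℕ) := dif_pos k.2
    simp only [e1, e2] at h8
    omega
  have hS : #(univ.image ev) = b ^ κ := by
    rw [Finset.card_image_of_injective _ hinj, Finset.card_univ, Fintype.card_fun,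
      Fintype.card_fin, Fintype.card_fin]
  have hfin := hSX F X (univ.image ev) hX ?_
  · rw [hS] at hfin
    omega
  · intro s hs
    obtain ⟨φ, -, rfl⟩ := Finset.mem_image.1 hs
    have h1 := (hSUB F X).2 κ (ext φ) (fun k => γ ^ k)
    have h2 : ∑ k ∈ range κ, ext φ k * #(X.image (· + γ ^ k) \ X) ≤ 32 * E ^ 2 * κ ^ 2 := by
      calc ∑ k ∈ range κ, ext φ k * #(X.image (· + γ ^ k) \ X)
          ≤ ∑ k ∈ range κ, (32 * E) * (E * (1 + k)) := by
            refine Finset.sum_le_sum fun k hk => ?_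
            have h3 := hext φ k (Finset.mem_range.1 hk)
            exact Nat.mul_le_mul (by omega) (hcost k)
        _ = 32 * E ^ 2 * ∑ k ∈ range κ, (1 + k) := by
            rw [Finset.mul_sum]
            refine Finset.sum_congr rfl fun k _ => ?_
            ring
        _ ≤ 32 * E ^ 2 * κ ^ 2 := Nat.mul_le_mul_left _ (sum1 κ)
    have h3 : #(X.image (· + ev φ) \ X) ≤ 32 * E ^ 2 * κ ^ 2 := le_trans h1 h2
    have h4 : 64 * E ^ 2 * κ ^ 2 = 2 * (32 * E ^ 2 * κ ^ 2) := by ring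
    omega

end Pool.Agent.Helper32.CO
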